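import Pool.Agent.Run7.h940.PACH.DU4
import Pool.Agent.Run7.h940.PACH.DU5

/-!
# Colourful partitions and regression depth of hyperplanes

MP_034a88_co, Q1. A hyperplane `{x | ⟪n, x⟫ = c}` of `ℝ^d` is given by the pair `(n, c)`.

1. Q1 for `r = 2` and all `d`: any `d + 1` classes of two hyperplanes each have a colourful partition
   into two parts and a point with positive regression depth with respect to both parts.
2. Homogeneous selection (the analogue of Pach's theorem): for every `d` there is `c > 0` such that for
   all nonempty finite classes `A 0, …, A d` of hyperplanes there are a point `q` and `D i ⊆ A i` with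
   `|D i| ≥ c |A i|` such that `q` has positive regression depth with respect to **every** colourful
   choice of `d + 1` hyperplanes from `D 0, …, D d`.
3. Hence Q1 holds up to a constant factor in the sizes, for all `r` and `d`: there is `C = C(d)` such
   that if each class has at least `C r` hyperplanes then there are `r` pairwise disjoint colourful
   parts (one hyperplane of each colour) and a point which has positive regression depth with
   respect to all of them.

Proof. Let `v_h(q)` be the vector from `q` to the nearest point of `h`; `q` has positive depth if `0` is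
in the convex hull of the `v_h(q)`. In 1, for weights `|x_i|` on the two hyperplanes of colour `i` let
`q(x)` be the minimum of the weighted sum of squared distances (regularised), an even function of
`x`; apply the Borsuk–Ulam theorem to the difference of the two weighted sums of the `v_h(q(x))`. In 2,
a first selection lemma: if every `q` is good for few colourful choices, choose for all cubes of a fine
grid hyperplanes which are bad for all flags of cubes; the vector field which interpolates the fields
of the chosen hyperplanes has a zero by Brouwer's theorem; the zeros are in a bounded set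
independent of the grid (the regularised equation shows that the cell of the arrangement which
contains the zero has no recession direction). Then the separation argument of
`Run7/h940/PACH` (Pach's theorem for arbitrary sizes, `MP_c3eb34_co.AllSizes`).
-/

set_option autoImplicit false

namespace Pool.Agent.Results.MP_034a88_co.RadonAndLinearClasses
open scoped RealInnerProductSpace
open Run7.h940.PACH.DU (vf)

/-- `ℝ^d` -/
abbrev V (d : ℕ) := EuclideanSpace ℝ (Fin d)

/-- The point `q` has positive regression depth with respect to the hyperplanes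
`{x | ⟪h.1, x⟫ = h.2}`, `h ∈ B`: every ray `{q + t v : t ≥ 0}`, `v ≠ 0`, meets one of them or is parallel
to one of them. -/
def PosDepth {d : ℕ} (B : Set (V d × ℝ)) (q : V d) : Prop :=
  ∀ v : V d, v ≠ 0 → ∃ h ∈ B, (∃ t : ℝ, 0 ≤ t ∧ (⟪h.1, q + t • v⟫ : ℝ) = h.2) ∨ (⟪h.1, v⟫ : ℝ) = 0

/-- `B 0, …, B (r-1)` is a colourful partition of the classes `A 0, …, A d`: the part `B j` contains one
hyperplane `B j i` of each colour `i`, and every hyperplane of `A i` is in exactly one part. -/
def IsColourfulPartition {d r : ℕ} (A : Fin (d + 1) → Finset (V d × ℝ))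
    (B : Fin r → Fin (d + 1) → V d × ℝ) : Prop :=
  ∀ i, Function.Injective (fun j => B j i) ∧ Set.range (fun j => B j i) = (A i : Set (V d × ℝ))

theorem posDepth_of_hull {d : ℕ} {ι : Type} [Fintype ι] (x : ι → V d × ℝ) (q : V d)
    (h : (0 : V d) ∈ convexHull ℝ (Set.range fun i => vf (x i) q)) : PosDepth (Set.range x) q := by
  intro v hv
  by_contra hcon
  push Not at hcon
  obtain ⟨l, hl0, hl1, hl⟩ := (Run7.h940.PACH.mem_hull _ _).1 h
  have hneg : ∀ i, (⟪vf (x i) q, v⟫ : ℝ) < 0 := by
    intro i
    obtain ⟨h1, h2⟩ := hcon (x i) ⟨i, rfl⟩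
    have h3 : (⟪vf (x i) q, v⟫ : ℝ) = ((x i).2 - ⟪(x i).1, q⟫) * ⟪(x i).1, v⟫ := by
      rw [vf, inner_smul_left]; simp
    rw [h3]
    by_contra h4
    push Not at h4
    refine h1 (((x i).2 - ⟪(x i).1, q⟫) / ⟪(x i).1, v⟫) ?_ ?_
    · rw [div_nonneg_iff]
      rcases lt_or_gt_of_ne h2 with h5 | h5
      · right
        refine ⟨?_, h5.le⟩
        by_contra h6
        push Not at h6
        nlinarith
      · left
        refine ⟨?_, h5.le⟩
        by_contra h6
        push Not at h6
        nlinarith
    · rw [inner_add_right, inner_smul_right, div_mul_cancel₀ _ h2]; ring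
  have h5 : (⟪∑ i, l i • vf (x i) q, v⟫ : ℝ) = 0 := by rw [hl, inner_zero_left]
  rw [sum_inner] at h5
  have h6 : ∀ i, (⟪l i • vf (x i) q, v⟫ : ℝ) ≤ 0 := by
    intro i
    rw [inner_smul_left]
    simp only [conj_trivial]
    exact mul_nonpos_of_nonneg_of_nonpos (hl0 i) (hneg i).le
  have h7 := (Finset.sum_eq_zero_iff_of_nonpos fun i _ => h6 i).1 h5
  have h8 : ∀ i, l i = 0 := by
    intro i
    have := h7 i (Finset.mem_univ i)
    rw [inner_smul_left] at this
    simp only [conj_trivial] at this
    rcases mul_eq_zero.1 this with h9 | h9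
    · exact h9
    · exact absurd h9 (hneg i).ne
  simp [h8] at hl1

theorem result : ∀ d : ℕ, 1 ≤ d →
    -- Q1 for `r = 2`
    (∀ A : Fin (d + 1) → Finset (V d × ℝ), (∀ i, (A i).card = 2) →
      ∃ (q : V d) (B : Fin 2 → Fin (d + 1) → V d × ℝ), IsColourfulPartition A B ∧
        ∀ j, PosDepth (Set.range (B j)) q) ∧
    -- homogeneous selection
    (∃ c : ℝ, 0 < c ∧ ∀ A : Fin (d + 1) → Finset (V d × ℝ), (∀ i, (A i).Nonempty) →
      ∃ (q : V d) (D : Fin (d + 1) → Finset (V d × ℝ)),
        (∀ i, D i ⊆ A i ∧ c * ((A i).card : ℝ) ≤ ((D i).card : ℝ)) ∧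
        ∀ x : Fin (d + 1) → V d × ℝ, (∀ i, x i ∈ D i) → PosDepth (Set.range x) q) ∧
    -- `r` disjoint colourful parts in classes of at least `C r` hyperplanes
    ∃ C : ℕ, ∀ (r : ℕ) (A : Fin (d + 1) → Finset (V d × ℝ)), (∀ i, C * r ≤ (A i).card) →
      ∃ (q : V d) (B : Fin r → Fin (d + 1) → V d × ℝ),
        (∀ i, Function.Injective (fun j => B j i) ∧ ∀ j, B j i ∈ A i) ∧
        ∀ j, PosDepth (Set.range (B j)) q := by
  intro d _
  classical
  refine ⟨?_, ?_, ?_⟩
  · intro A hA
    choose a b hab hAe using fun i => Finset.card_eq_two.1 (hA i)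
    obtain ⟨q, s, h1, h2⟩ := Run7.h940.PACH.DU.radonH d a b
    refine ⟨q, fun j i => if j = 0 then (if s i then a i else b i) else (if s i then b i else a i),
      fun i => ⟨?_, ?_⟩, ?_⟩
    · intro j j' h
      fin_cases j <;> fin_cases j' <;> simp at h ⊢
      · split_ifs at h
        · exact hab i h
        · exact hab i h.symm
      · split_ifs at h
        · exact hab i h.symm
        · exact hab i h
    · rw [hAe i]
      ext h
      simp only [Set.mem_range, Finset.coe_insert, Finset.coe_singleton, Set.mem_insert_iff,
        Set.mem_singleton_iff, Fin.exists_fin_two]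
      cases s i
      · simp only [Bool.false_eq_true, if_false, if_true]
        constructor
        · rintro (h | h)
          · right; exact h.symm
          · left; simpa using h.symm
        · rintro (h | h)
          · right; simpa using h.symm
          · left; exact h.symm
      · simp only [if_true]
        constructor
        · rintro (h | h)
          · left; exact h.symm
          · right; simpa using h.symm
        · rintro (h | h)
          · left; exact h.symm
          · right; simpa using h.symm
    · intro j
      fin_cases j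
      · exact posDepth_of_hull _ q h1
      · exact posDepth_of_hull _ q h2
  · obtain ⟨c, hc, h⟩ := Run7.h940.PACH.DU.homH d
    refine ⟨c, hc, fun A hA => ?_⟩
    obtain ⟨q, D, hD, hq⟩ := h A hA
    exact ⟨q, D, hD, fun x hx => posDepth_of_hull x q (hq x hx)⟩
  · obtain ⟨c, hc, h⟩ := Run7.h940.PACH.DU.homH d
    refine ⟨⌈1 / c⌉₊, fun r A hA => ?_⟩
    rcases Nat.eq_zero_or_pos r with rfl | hr
    · exact ⟨0, fun j => j.elim0, fun i => ⟨fun j => j.elim0, fun j => j.elim0⟩, fun j => j.elim0⟩
    have hC1 : 1 / c ≤ (⌈1 / c⌉₊ : ℝ) := Nat.le_ceil _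
    have hCpos : 0 < ⌈1 / c⌉₊ := Nat.ceil_pos.2 (by positivity)
    obtain ⟨q, D, hD, hq⟩ := h A (fun i => Finset.card_pos.1
      (lt_of_lt_of_le (Nat.mul_pos hCpos hr) (hA i)))
    have hDr : ∀ i, r ≤ (D i).card := by
      intro i
      have h1 : (⌈1 / c⌉₊ : ℝ) * r ≤ ((A i).card : ℝ) := by exact_mod_cast hA i
      have h2 : (r : ℝ) ≤ ((D i).card : ℝ) := by
        calc (r : ℝ) = c * ((1 / c) * r) := by field_simp
          _ ≤ c * ((⌈1 / c⌉₊ : ℝ) * r) := by gcongr
          _ ≤ c * ((A i).card : ℝ) := by gcongr
          _ ≤ _ := (hD i).2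
      exact_mod_cast h2
    refine ⟨q, fun j i => ((D i).equivFin.symm ⟨j, lt_of_lt_of_le j.2 (hDr i)⟩ : V d × ℝ),
      fun i => ⟨?_, fun j => (hD i).1 (Finset.coe_mem _)⟩, fun j => ?_⟩
    · intro j j' h
      have h1 := (D i).equivFin.symm.injective (Subtype.ext h)
      exact Fin.ext (by simpa using h1)
    · exact posDepth_of_hull _ q (hq _ fun i => Finset.coe_mem _)

end Pool.Agent.Results.MP_034a88_co.RadonAndLinearClasses
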